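import Pool.Agent.Helper21.WD.Stmts

/-!
# RK1: modules over an algebra with an idempotent of rank one
-/

set_option autoImplicit false

open Matrix

namespace MT

namespace Rk1Aux

variable {K : Type} [Field K] {I J : Type} [Fintype I] [DecidableEq I] [Fintype J] [DecidableEq J]

/-- an idempotent of rank one -/
theorem rank_one (f : Matrix I I K) (hr : f.rank = 1) :
    ∃ p φ : I → K, f = Matrix.vecMulVec p φ := by
  have h1 : Module.finrank K (LinearMap.range f.mulVecLin) = 1 := hr
  obtain ⟨x, hx, hsp⟩ := finrank_eq_one_iff'.1 h1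
  choose c hc using fun j : I => hsp ⟨f.mulVecLin (Pi.single j 1), LinearMap.mem_range_self _ _⟩
  refine ⟨(x : I → K), c, ?_⟩
  ext i j
  have h2 := congrArg (fun u : LinearMap.range f.mulVecLin => (u : I → K) i) (hc j)
  simp only [Submodule.coe_smul, Pi.smul_apply, smul_eq_mul, Matrix.mulVecLin_apply] at h2
  rw [Matrix.mulVec_single_one] at h2
  rw [Matrix.vecMulVec_apply, mul_comm, h2]
  rfl

/-- functionals without common zero -/
theorem no_zero (S : Submodule K (J → K)) (h : ∀ v : J → K, (∀ r ∈ S, r ⬝ᵥ v = 0) → v = 0) :
    S = ⊤ := by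
  by_contra hS
  obtain ⟨g, hg, hSg⟩ := Submodule.exists_le_ker_of_lt_top S (lt_top_iff_ne_top.2 hS)
  apply hg
  have hv : ∀ r : J → K, r ⬝ᵥ (fun j => g (Pi.single j 1)) = g r := by
    intro r
    rw [LinearMap.pi_apply_eq_sum_univ g r]
    apply Finset.sum_congr rfl
    intro i _
    rw [smul_eq_mul]
    have h2 : (fun j : J => if i = j then (1 : K) else 0) = Pi.single i 1 := by
      ext j
      by_cases hij : i = j
      · subst hij
        simp
      · simp [hij]
    rw [h2]
  have h0 := h (fun j => g (Pi.single j 1)) (fun r hr => by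
    rw [hv]
    exact hSg hr)
  ext j
  have := congrFun h0 j
  simpa using this

omit [Fintype J] [DecidableEq J] in
/-- a matrix is a sum of matrices of rank one -/
theorem all_rank_one (B : Submodule K (Matrix I J K))
    (h : ∀ (v : I → K) (r : J → K), Matrix.vecMulVec v r ∈ B) : B = ⊤ := by
  rw [eq_top_iff]
  intro M _
  have : M = ∑ i, Matrix.vecMulVec (Pi.single i (1 : K)) (M i) := by
    ext a b
    rw [Matrix.sum_apply, Finset.sum_eq_single a]
    · rw [Matrix.vecMulVec_apply, Pi.single_eq_same, one_mul]
    · intro i _ hi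
      rw [Matrix.vecMulVec_apply, Pi.single_eq_of_ne (Ne.symm hi), zero_mul]
    · intro ha
      exact absurd (Finset.mem_univ a) ha
  rw [this]
  exact Submodule.sum_mem _ fun i _ => h _ _

end Rk1Aux

open Rk1Aux

theorem st_RK1 : ST_RK1 := by
  intro K _ I J _ _ _ _ f F hff hrank hfF hgen hsep
  obtain ⟨p, φ, rfl⟩ := rank_one f hrank
  constructor
  · intro B hB hsepB
    -- the row vectors `φ y`
    let S : Submodule K (J → K) :=
      { carrier := {r | Matrix.vecMulVec p r ∈ B}
        add_mem' := by
          intro a b ha hb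
          show Matrix.vecMulVec p (a + b) ∈ B
          rw [Matrix.vecMulVec_add]
          exact B.add_mem ha hb
        zero_mem' := by
          have h0 : Matrix.vecMulVec p (0 : J → K) = 0 := by
            ext i j
            simp [Matrix.vecMulVec_apply]
          show Matrix.vecMulVec p (0 : J → K) ∈ B
          rw [h0]
          exact B.zero_mem
        smul_mem' := by
          intro c a ha
          show Matrix.vecMulVec p (c • a) ∈ B
          rw [Matrix.vecMulVec_smul]
          exact B.smul_mem c ha }
    have hS : S = ⊤ := by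
      apply no_zero
      intro v hv
      apply hsepB
      intro y hy
      have h1 : Matrix.vecMulVec p φ * y = Matrix.vecMulVec p (φ ᵥ* y) :=
        Matrix.vecMulVec_mul p φ y
      have h2 : (φ ᵥ* y) ∈ S := by
        show Matrix.vecMulVec p (φ ᵥ* y) ∈ B
        rw [← h1]
        exact hB _ hfF _ hy
      rw [h1, Matrix.vecMulVec_mulVec, hv _ h2]
      simp
    apply all_rank_one
    intro v r
    have hr : Matrix.vecMulVec p r ∈ B := by
      have : r ∈ S := by
        rw [hS]
        exact Submodule.mem_top
      exact this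
    refine Submodule.span_induction (p := fun v _ => Matrix.vecMulVec v r ∈ B) ?_ ?_ ?_ ?_ (hgen v)
    · rintro u ⟨x, hx, u', rfl⟩
      have h1 : (x * Matrix.vecMulVec p φ) *ᵥ u' = (φ ⬝ᵥ u') • (x *ᵥ p) := by
        rw [Matrix.mul_vecMulVec, Matrix.vecMulVec_mulVec]
        simp
      rw [h1, Matrix.smul_vecMulVec, ← Matrix.mul_vecMulVec]
      exact B.smul_mem _ (hB _ hx _ hr)
    · rw [Matrix.zero_vecMulVec]
      exact B.zero_mem
    · intro a b _ _ ha hb
      rw [Matrix.add_vecMulVec]
      exact B.add_mem ha hb
    · intro c a _ ha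
      rw [Matrix.smul_vecMulVec]
      exact B.smul_mem _ ha
  · intro B hB hgenB
    have hv : ∀ v : J → K, Matrix.vecMulVec v φ ∈ B := by
      intro v
      refine Submodule.span_induction (p := fun v _ => Matrix.vecMulVec v φ ∈ B)
        ?_ ?_ ?_ ?_ (hgenB v)
      · rintro u ⟨y, hy, u', rfl⟩
        have h1 : (y * Matrix.vecMulVec p φ) *ᵥ u' = (φ ⬝ᵥ u') • (y *ᵥ p) := by
          rw [Matrix.mul_vecMulVec, Matrix.vecMulVec_mulVec]
          simp
        rw [h1, Matrix.smul_vecMulVec, ← Matrix.mul_vecMulVec]
        exact B.smul_mem _ (hB _ hfF _ hy)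
      · rw [Matrix.zero_vecMulVec]
        exact B.zero_mem
      · intro a b _ _ ha hb
        rw [Matrix.add_vecMulVec]
        exact B.add_mem ha hb
      · intro c a _ ha
        rw [Matrix.smul_vecMulVec]
        exact B.smul_mem _ ha
    apply all_rank_one
    intro v r
    let S : Submodule K (I → K) :=
      { carrier := {r | Matrix.vecMulVec v r ∈ B}
        add_mem' := by
          intro a b ha hb
          show Matrix.vecMulVec v (a + b) ∈ B
          rw [Matrix.vecMulVec_add]
          exact B.add_mem ha hb
        zero_mem' := by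
          have h0 : Matrix.vecMulVec v (0 : I → K) = 0 := by
            ext i j
            simp [Matrix.vecMulVec_apply]
          show Matrix.vecMulVec v (0 : I → K) ∈ B
          rw [h0]
          exact B.zero_mem
        smul_mem' := by
          intro c a ha
          show Matrix.vecMulVec v (c • a) ∈ B
          rw [Matrix.vecMulVec_smul]
          exact B.smul_mem c ha }
    have hS : S = ⊤ := by
      apply no_zero
      intro t ht
      apply hsep
      intro x hx
      have h1 : Matrix.vecMulVec p φ * x = Matrix.vecMulVec p (φ ᵥ* x) :=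
        Matrix.vecMulVec_mul p φ x
      have h2 : (φ ᵥ* x) ∈ S := by
        show Matrix.vecMulVec v (φ ᵥ* x) ∈ B
        rw [← Matrix.vecMulVec_mul]
        exact hB _ hx _ (hv v)
      rw [h1, Matrix.vecMulVec_mulVec, ht _ h2]
      simp
    have : r ∈ S := by
      rw [hS]
      exact Submodule.mem_top
    exact this

end MT
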