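import Pool.Agent.Helper82.RM.Spc
import Pool.Agent.Helper21.WD.StmtsM

/-!
# SPCM: the operator of an isolated eigenvalue of any multiplicity
-/

set_option autoImplicit false

open MT

namespace MR

namespace SpcmAux

open Matrix SpcAux

variable {K : Type} [Field K] {n : ℕ}

/-- the generalised eigenspace -/
abbrev GE (g : Matrix (Fin n) (Fin n) K) (m : K) : Submodule K (Fin n → K) :=
  Module.End.maxGenEigenspace (Matrix.toLin' g) m

theorem mem_GE (g : Matrix (Fin n) (Fin n) K) (m : K) (v : Fin n → K) :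
    v ∈ GE g m ↔ ∃ j : ℕ, (g - m • (1 : Matrix (Fin n) (Fin n) K)) ^ j *ᵥ v = 0 := by
  rw [Module.End.mem_maxGenEigenspace]
  have e1 : ((Matrix.toLin' g) - m • (1 : Module.End K (Fin n → K))) =
      Matrix.toLin' (g - m • (1 : Matrix (Fin n) (Fin n) K)) := by
    rw [map_sub, map_smul]
    congr 2
    exact Matrix.toLin'_one.symm
  rw [e1]
  constructor
  · rintro ⟨j, hj⟩
    refine ⟨j, ?_⟩
    rw [← Matrix.toLin'_apply, Matrix.toLin'_pow]
    exact hj
  · rintro ⟨j, hj⟩
    refine ⟨j, ?_⟩
    rw [← Matrix.toLin'_apply, Matrix.toLin'_pow] at hj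
    exact hj

theorem mul_mem_GE (g : Matrix (Fin n) (Fin n) K) (m : K) (v : Fin n → K) (hv : v ∈ GE g m) :
    g *ᵥ v ∈ GE g m := by
  rw [mem_GE] at hv ⊢
  obtain ⟨j, hj⟩ := hv
  refine ⟨j, ?_⟩
  have hc : (g - m • (1 : Matrix (Fin n) (Fin n) K)) ^ j * g =
      g * (g - m • (1 : Matrix (Fin n) (Fin n) K)) ^ j := by
    have h1 : Commute (g - m • (1 : Matrix (Fin n) (Fin n) K)) g := by
      rw [Commute, SemiconjBy, sub_mul, mul_sub, smul_mul_assoc, mul_smul_comm, one_mul, mul_one]
    exact (h1.pow_left j)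
  rw [Matrix.mulVec_mulVec, hc, ← Matrix.mulVec_mulVec, hj, Matrix.mulVec_zero]

/-- orthogonality of the generalised eigenspaces -/
theorem orth (g ψ : Matrix (Fin n) (Fin n) K) (c x y : K) (hG : g.transpose * ψ * g = c • ψ)
    (hxy : x * y ≠ c) (i j : ℕ) : ∀ v w : Fin n → K,
      (g - x • (1 : Matrix (Fin n) (Fin n) K)) ^ i *ᵥ v = 0 →
      (g - y • (1 : Matrix (Fin n) (Fin n) K)) ^ j *ᵥ w = 0 → v ⬝ᵥ (ψ *ᵥ w) = 0 := by
  have hB : ∀ v w : Fin n → K, (g *ᵥ v) ⬝ᵥ (ψ *ᵥ (g *ᵥ w)) = c * (v ⬝ᵥ (ψ *ᵥ w)) := by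
    intro v w
    rw [← Matrix.vecMul_transpose, ← Matrix.dotProduct_mulVec, Matrix.mulVec_mulVec,
      Matrix.mulVec_mulVec, hG, Matrix.smul_mulVec, dotProduct_smul, smul_eq_mul]
  induction i generalizing j with
  | zero =>
    intro v w hv _
    rw [pow_zero, Matrix.one_mulVec] at hv
    rw [hv, zero_dotProduct]
  | succ i ih =>
    induction j with
    | zero =>
      intro v w _ hw
      rw [pow_zero, Matrix.one_mulVec] at hw
      rw [hw, Matrix.mulVec_zero, dotProduct_zero]
    | succ j jh =>
      intro v w hv hw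
      have hgv : g *ᵥ v = x • v + (g - x • (1 : Matrix (Fin n) (Fin n) K)) *ᵥ v := by
        rw [Matrix.sub_mulVec, Matrix.smul_mulVec, Matrix.one_mulVec]
        abel
      have hgw : g *ᵥ w = y • w + (g - y • (1 : Matrix (Fin n) (Fin n) K)) *ᵥ w := by
        rw [Matrix.sub_mulVec, Matrix.smul_mulVec, Matrix.one_mulVec]
        abel
      have hv' : (g - x • (1 : Matrix (Fin n) (Fin n) K)) ^ i *ᵥ
          ((g - x • (1 : Matrix (Fin n) (Fin n) K)) *ᵥ v) = 0 := by
        rw [Matrix.mulVec_mulVec, ← pow_succ]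
        exact hv
      have hw' : (g - y • (1 : Matrix (Fin n) (Fin n) K)) ^ j *ᵥ
          ((g - y • (1 : Matrix (Fin n) (Fin n) K)) *ᵥ w) = 0 := by
        rw [Matrix.mulVec_mulVec, ← pow_succ]
        exact hw
      have h1 := hB v w
      rw [hgv, hgw, add_dotProduct, Matrix.mulVec_add, dotProduct_add, dotProduct_add,
        ih (j + 1) _ _ hv' (by
          rw [Matrix.mulVec_smul, hw, smul_zero]),
        ih j _ _ hv' hw', smul_dotProduct, smul_dotProduct, jh v _ hv hw', Matrix.mulVec_smul,
        dotProduct_smul] at h1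
      simp only [smul_eq_mul, mul_zero, add_zero] at h1
      have h2 : (x * y - c) * (v ⬝ᵥ (ψ *ᵥ w)) = 0 := by linear_combination h1
      exact (mul_eq_zero.1 h2).resolve_left (sub_ne_zero.2 hxy)

open scoped Classical in
/-- a matrix acting as a given scalar on each generalised eigenspace -/
theorem exists_C [IsAlgClosed K] (g : Matrix (Fin n) (Fin n) K) (sg : K → ℤ)
    (hsg : ∀ m, |sg m| ≤ 1) (a : K) (ha : ∀ m, sg m = 1 ↔ m = a) :
    ∃ (P : Matrix.GeneralLinearGroup (Fin n) K) (s : Fin n → ℤ) (C : Matrix (Fin n) (Fin n) K),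
      C = (P : Matrix (Fin n) (Fin n) K) * Matrix.diagonal (fun j => (s j : K)) *
        ((P⁻¹ : Matrix.GeneralLinearGroup (Fin n) K) : Matrix (Fin n) (Fin n) K) ∧
      (∀ j, |s j| ≤ 1) ∧ (Finset.univ.filter fun j => s j = 1).card =
        g.charpoly.rootMultiplicity a ∧
      ∀ m, ∀ v ∈ GE g m, C *ᵥ v = (sg m : K) • v := by
  have hint : DirectSum.IsInternal (fun m : K => GE g m) := by
    apply DirectSum.isInternal_submodule_of_iSupIndep_of_iSup_eq_top
    · exact Module.End.independent_maxGenEigenspace _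
    · exact Module.End.iSup_maxGenEigenspace_eq_top _
  set b := hint.collectedBasis (fun m : K => Module.finBasis K (GE g m)) with hb
  have hbm : ∀ p : Σ m : K, Fin (Module.finrank K (GE g m)), b p ∈ GE g p.1 := by
    intro p
    rw [hb]
    exact hint.collectedBasis_mem _ p
  have : Finite (Σ m : K, Fin (Module.finrank K (GE g m))) := Module.Finite.finite_basis b
  have : Fintype (Σ m : K, Fin (Module.finrank K (GE g m))) := Fintype.ofFinite _
  set e : (Σ m : K, Fin (Module.finrank K (GE g m))) ≃ Fin n :=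
    b.indexEquiv (Pi.basisFun K (Fin n)) with he
  set b' := b.reindex e with hb'
  have hb'v : ∀ j, b' j = b (e.symm j) := by
    intro j
    rw [hb', Module.Basis.reindex_apply]
  set Q : Matrix (Fin n) (Fin n) K := Matrix.of fun i j => b' j i with hQ
  have hQc : Q.col = b' := by
    funext j i
    rfl
  have hQu : IsUnit Q := by
    rw [← Matrix.linearIndependent_cols_iff_isUnit, hQc]
    exact b'.linearIndependent
  obtain ⟨P, hP⟩ := hQu
  set s : Fin n → ℤ := fun j => sg (e.symm j).1 with hs
  have hPP : ((P⁻¹ : Matrix.GeneralLinearGroup (Fin n) K) : Matrix (Fin n) (Fin n) K) *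
      (P : Matrix (Fin n) (Fin n) K) = 1 := by
    rw [← Units.val_mul, inv_mul_cancel, Units.val_one]
  set C : Matrix (Fin n) (Fin n) K :=
    (P : Matrix (Fin n) (Fin n) K) * Matrix.diagonal (fun j => (s j : K)) *
      ((P⁻¹ : Matrix.GeneralLinearGroup (Fin n) K) : Matrix (Fin n) (Fin n) K) with hC
  have hPb : ∀ j, (P : Matrix (Fin n) (Fin n) K) *ᵥ Pi.single j 1 = b' j := by
    intro j
    rw [hP, Matrix.mulVec_single_one, hQc]
  have hCb : ∀ j, C *ᵥ b' j = (s j : K) • b' j := by
    intro j
    rw [← hPb j, Matrix.mulVec_mulVec, hC, mul_assoc, hPP, mul_one, ← Matrix.mulVec_mulVec,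
      ← Matrix.mulVec_smul]
    congr 1
    ext i
    rw [Matrix.mulVec_diagonal]
    by_cases hij : i = j
    · subst hij
      simp
    · simp [Pi.single_eq_of_ne hij]
  refine ⟨P, s, C, rfl, fun j => hsg _, ?_, ?_⟩
  · rw [← Matrix.charpoly_toLin', ← LinearMap.finrank_maxGenEigenspace_eq]
    have h1 : (Finset.univ.filter fun j => s j = 1) =
        (Finset.univ : Finset (Fin (Module.finrank K (GE g a)))).map
          ⟨fun i => e ⟨a, i⟩, by
            intro i i' hii
            have := e.injective hii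
            simpa using this⟩ := by
      ext j
      simp only [Finset.mem_filter, Finset.mem_univ, true_and, Finset.mem_map,
        Function.Embedding.coeFn_mk]
      constructor
      · intro hj
        have hj' : (e.symm j).1 = a := (ha _).1 hj
        rcases hp : e.symm j with ⟨m, i⟩
        rw [hp] at hj'
        simp only at hj'
        subst hj'
        refine ⟨i, ?_⟩
        rw [← hp, Equiv.apply_symm_apply]
      · rintro ⟨i, rfl⟩
        rw [hs]
        simp only [Equiv.symm_apply_apply]
        exact (ha a).2 rfl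
    rw [h1, Finset.card_map, Finset.card_univ, Fintype.card_fin]
  · intro m v hv
    -- the vectors of the basis in `GE g m` span it
    have hmem : ∀ u : Fin n → K, u ∈ GE g m → u ∈ Submodule.span K
        (Set.range fun i : Fin (Module.finrank K (GE g m)) => b' (e ⟨m, i⟩)) := by
      intro u hu
      have h2 : ∀ i, b' (e ⟨m, i⟩) = ((Module.finBasis K (GE g m)) i : Fin n → K) := by
        intro i
        rw [hb'v, Equiv.symm_apply_apply, hb, DirectSum.IsInternal.collectedBasis_coe]
      have h3 := (Module.finBasis K (GE g m)).mem_span ⟨u, hu⟩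
      have h4 := Submodule.mem_map_of_mem (f := (GE g m).subtype) h3
      rw [Submodule.map_span, ← Set.range_comp] at h4
      have h5 : (fun i : Fin (Module.finrank K (GE g m)) => b' (e ⟨m, i⟩)) =
          ((GE g m).subtype ∘ (Module.finBasis K (GE g m))) := by
        funext i
        rw [h2]
        rfl
      rw [h5]
      exact h4
    refine Submodule.span_induction ?_ ?_ ?_ ?_ (hmem v hv)
    · rintro _ ⟨i, rfl⟩
      rw [hCb, hs]
      simp only [Equiv.symm_apply_apply]
    · rw [Matrix.mulVec_zero, smul_zero]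
    · intro x y _ _ hx hy
      rw [Matrix.mulVec_add, hx, hy, smul_add]
    · intro r x _ hx
      rw [Matrix.mulVec_smul, hx, smul_comm]

end SpcmAux

open Matrix SpcAux SpcmAux in
theorem st_SPCM : ST_SPCM := by
  intro K _ _ _ n ε ψ G c a hdet hsym hε hG hroot h4 hiso
  classical
  set g : Matrix (Fin n) (Fin n) K := (G : Matrix (Fin n) (Fin n) K) with hg
  -- units
  have hGG : g * ((G⁻¹ : Matrix.GeneralLinearGroup (Fin n) K) : Matrix (Fin n) (Fin n) K) = 1 := by
    rw [hg, ← Units.val_mul, mul_inv_cancel, Units.val_one]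
  have hGG' : ((G⁻¹ : Matrix.GeneralLinearGroup (Fin n) K) : Matrix (Fin n) (Fin n) K) * g = 1 := by
    rw [hg, ← Units.val_mul, inv_mul_cancel, Units.val_one]
  have hψu : IsUnit ψ.det := isUnit_iff_ne_zero.2 hdet
  have hψi : ψ * ψ⁻¹ = 1 := Matrix.mul_nonsing_inv ψ hψu
  have hginj : ∀ u : Fin n → K, g *ᵥ u = 0 → u = 0 := by
    intro u hu
    have := congrArg (fun v => ((G⁻¹ : Matrix.GeneralLinearGroup (Fin n) K) :
      Matrix (Fin n) (Fin n) K) *ᵥ v) hu
    simp only [Matrix.mulVec_mulVec, Matrix.mulVec_zero] at this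
    rwa [hGG', Matrix.one_mulVec] at this
  have hψginj : ∀ u v : Fin n → K, u ᵥ* (ψ * g) = v ᵥ* (ψ * g) → u = v := by
    intro u v huv
    have := congrArg (fun r => r ᵥ* (((G⁻¹ : Matrix.GeneralLinearGroup (Fin n) K) :
      Matrix (Fin n) (Fin n) K) * ψ⁻¹)) huv
    simp only [Matrix.vecMul_vecMul] at this
    have e : ψ * g * (((G⁻¹ : Matrix.GeneralLinearGroup (Fin n) K) :
      Matrix (Fin n) (Fin n) K) * ψ⁻¹) = 1 := by
      rw [mul_assoc ψ, ← mul_assoc g, hGG, one_mul, hψi]
    rwa [e, Matrix.vecMul_one, Matrix.vecMul_one] at this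
  have hψinj : ∀ u v : Fin n → K, u ᵥ* ψ = v ᵥ* ψ → u = v := by
    intro u v huv
    apply hψginj
    rw [← Matrix.vecMul_vecMul, huv, Matrix.vecMul_vecMul]
  -- `(g u)^T ψ g = c u^T ψ`
  have hsim : ∀ u : Fin n → K, (g *ᵥ u) ᵥ* (ψ * g) = c • (u ᵥ* ψ) := by
    intro u
    rw [← Matrix.vecMul_transpose, Matrix.vecMul_vecMul, ← mul_assoc, hG, Matrix.vecMul_smul]
  obtain ⟨x, hx0, hgx⟩ := exists_eig g a hroot
  have ha : a ≠ 0 := by
    rintro rfl
    rw [zero_smul] at hgx
    exact hx0 (hginj x hgx)
  have hc : c ≠ 0 := by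
    rintro rfl
    have := hsim x
    rw [zero_smul] at this
    have h0 := hψginj (g *ᵥ x) 0 (by rw [this, Matrix.zero_vecMul])
    exact hx0 (hginj x h0)
  have haa : a * a ≠ c := by
    rintro rfl
    apply h4
    ring
  have h20 : (2 : K) ≠ 0 := two_ne_zero
  set sg : K → ℤ := fun m => if m = a then 1 else if m * a = c then -1 else 0 with hsg
  have sga : sg a = 1 := by
    simp [hsg]
  have sgb : ∀ m, m * a = c → sg m = -1 := by
    intro m hm
    have hma : m ≠ a := by
      rintro rfl
      exact haa hm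
    simp [hsg, hma, hm]
  have sg0 : ∀ m, m ≠ a → m * a ≠ c → sg m = 0 := by
    intro m h1 h2
    simp [hsg, h1, h2]
  have sgc : ∀ m, m = a ∨ m * a = c ∨ (m ≠ a ∧ m * a ≠ c) := by
    intro m
    by_cases h1 : m = a
    · exact Or.inl h1
    · by_cases h2 : m * a = c
      · exact Or.inr (Or.inl h2)
      · exact Or.inr (Or.inr ⟨h1, h2⟩)
  obtain ⟨P, s, C, hP, hs1, hs2, hC⟩ := exists_C g sg (by
    intro m
    rcases sgc m with rfl | h | ⟨h, h'⟩
    · rw [sga]
      simp
    · rw [sgb m h]
      simp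
    · rw [sg0 m h h']
      simp) a (by
    intro m
    constructor
    · intro h
      rcases sgc m with rfl | h' | ⟨h', h''⟩
      · rfl
      · rw [sgb m h'] at h
        omega
      · rw [sg0 m h' h''] at h
        omega
    · rintro rfl
      exact sga)
  -- it is enough to look at the generalised eigenspaces
  have hspan : ∀ M : Matrix (Fin n) (Fin n) K, (∀ m, ∀ v ∈ GE g m, M *ᵥ v = 0) → M = 0 := by
    intro M hM
    have h1 : (⨆ m : K, Module.End.maxGenEigenspace (Matrix.toLin' g) m) ≤
        LinearMap.ker (Matrix.toLin' M) := by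
      apply iSup_le
      intro m v hv
      rw [LinearMap.mem_ker, Matrix.toLin'_apply]
      exact hM m v hv
    rw [Module.End.iSup_maxGenEigenspace_eq_top, top_le_iff, LinearMap.ker_eq_top] at h1
    exact (LinearEquiv.map_eq_zero_iff _).1 h1
  have hCg : C * g = g * C := by
    rw [← sub_eq_zero]
    apply hspan
    intro m v hv
    rw [Matrix.sub_mulVec, ← Matrix.mulVec_mulVec, ← Matrix.mulVec_mulVec,
      hC m _ (mul_mem_GE g m v hv), hC m v hv, Matrix.mulVec_smul, sub_self]
  have hCm : ∀ m, ∀ v ∈ GE g m, C *ᵥ v ∈ GE g m := by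
    intro m v hv
    rw [hC m v hv]
    exact Submodule.smul_mem _ _ hv
  have hC3 : C * C * C = C := by
    rw [← sub_eq_zero]
    apply hspan
    intro m v hv
    rw [Matrix.sub_mulVec, ← Matrix.mulVec_mulVec, ← Matrix.mulVec_mulVec, hC m v hv,
      Matrix.mulVec_smul, Matrix.mulVec_smul, hC m v hv, Matrix.mulVec_smul, hC m v hv, smul_smul,
      smul_smul, ← sub_smul]
    have : (sg m : K) * (sg m : K) * (sg m : K) - (sg m : K) = 0 := by
      rcases sgc m with rfl | h | ⟨h, h'⟩
      · rw [sga]
        push_cast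
        ring
      · rw [sgb m h]
        push_cast
        ring
      · rw [sg0 m h h']
        push_cast
        ring
    rw [this, zero_smul]
  have hskew : C.transpose * ψ + ψ * C = 0 := by
    have key : ∀ x y, ∀ v ∈ GE g x, ∀ w ∈ GE g y,
        v ⬝ᵥ ((C.transpose * ψ + ψ * C) *ᵥ w) = 0 := by
      intro x y v hv w hw
      have h1 : v ⬝ᵥ ((C.transpose * ψ + ψ * C) *ᵥ w) =
          ((sg x : K) + (sg y : K)) * (v ⬝ᵥ (ψ *ᵥ w)) := by
        rw [Matrix.add_mulVec, dotProduct_add, ← Matrix.mulVec_mulVec, ← Matrix.mulVec_mulVec,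
          hC y w hw, Matrix.dotProduct_mulVec v C.transpose, Matrix.vecMul_transpose, hC x v hv,
          Matrix.mulVec_smul, smul_dotProduct, dotProduct_smul, smul_eq_mul, smul_eq_mul]
        ring
      rw [h1]
      by_cases hxy : x * y = c
      · have h2 : (sg x : K) + (sg y : K) = 0 := by
          rcases sgc x with rfl | h | ⟨h, h'⟩
          · rw [sga, sgb y (by rw [mul_comm]; exact hxy)]
            push_cast
            ring
          · have hx : x ≠ 0 := by
              rintro rfl
              rw [zero_mul] at h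
              exact hc h.symm
            have hy : y = a := mul_left_cancel₀ hx (by rw [hxy, h])
            rw [hy, sga, sgb x h]
            push_cast
            ring
          · have h5 : y ≠ a := by
              rintro rfl
              exact h' hxy
            have h6 : y * a ≠ c := by
              intro h6
              have hy : y ≠ 0 := by
                rintro rfl
                rw [zero_mul] at h6
                exact hc h6.symm
              exact h (mul_left_cancel₀ hy (by rw [h6, mul_comm, hxy]))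
            rw [sg0 x h h', sg0 y h5 h6]
            push_cast
            ring
        rw [h2, zero_mul]
      · obtain ⟨i, hi⟩ := (mem_GE g x v).1 hv
        obtain ⟨j, hj⟩ := (mem_GE g y w).1 hw
        rw [orth g ψ c x y hG hxy i j v w hi hj, mul_zero]
    apply hspan
    intro y w hw
    have h1 : ∀ v : Fin n → K, v ⬝ᵥ ((C.transpose * ψ + ψ * C) *ᵥ w) = 0 := by
      intro v
      have hv : v ∈ (⨆ m : K, Module.End.maxGenEigenspace (Matrix.toLin' g) m) := by
        rw [Module.End.iSup_maxGenEigenspace_eq_top]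
        exact Submodule.mem_top
      refine Submodule.iSup_induction _ (motive := fun v =>
        v ⬝ᵥ ((C.transpose * ψ + ψ * C) *ᵥ w) = 0) hv ?_ ?_ ?_
      · intro x v hv
        exact key x y v hv w hw
      · rw [zero_dotProduct]
      · intro u v hu hv
        rw [add_dotProduct, hu, hv, add_zero]
    funext i
    have := h1 (Pi.single i 1)
    rwa [single_one_dotProduct] at this
  -- the weights of common eigenvectors
  have tgt : ∀ (s m : K) (u : Fin n → K), u ≠ 0 → C *ᵥ u = s • u → g *ᵥ u = m • u →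
      Wt g c a s m := by
    intro s m u hu hCu hgu
    have huG : u ∈ GE g m := by
      rw [mem_GE]
      refine ⟨1, ?_⟩
      rw [pow_one, Matrix.sub_mulVec, Matrix.smul_mulVec, Matrix.one_mulVec, hgu, sub_self]
    have h1 : s = (sg m : K) := by
      have h2 : (s - (sg m : K)) • u = 0 := by
        rw [sub_smul, ← hCu, hC m u huG, sub_self]
      exact sub_eq_zero.1 ((smul_eq_zero.1 h2).resolve_right hu)
    rcases sgc m with h | h | ⟨h, h'⟩
    · left
      refine ⟨?_, h⟩
      rw [h1, h, sga]
      push_cast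
      rfl
    · right; left
      refine ⟨?_, h⟩
      rw [h1, sgb m h]
      push_cast
      rfl
    · right; right
      refine ⟨?_, root_of_eig g m u hu hgu, h, h'⟩
      rw [h1, sg0 m h h']
      push_cast
      rfl
  have hdual : ∀ m, M0 g c a m → ∃ m', M0 g c a m' ∧ m * m' = c := by
    rintro m ⟨hr, hma, hmac⟩
    obtain ⟨w, hw, hgw⟩ := exists_eig g m hr
    have hm0 : m ≠ 0 := by
      rintro rfl
      rw [zero_smul] at hgw
      exact hw (hginj w hgw)
    have h3 := hsim w
    have hcm : m * (c / m) = c := mul_div_cancel₀ c hm0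
    rw [hgw, Matrix.smul_vecMul, ← Matrix.vecMul_vecMul] at h3
    conv_rhs at h3 => rw [← hcm, mul_smul]
    have h5 := smul_right_injective _ hm0 h3
    refine ⟨c / m, ⟨?_, ?_, ?_⟩, hcm⟩
    · have h6 := root_of_eig g.transpose (c / m) (w ᵥ* ψ) (by
        intro h0
        exact hw (hψinj w 0 (by rw [h0, Matrix.zero_vecMul]))) (by
          rw [Matrix.mulVec_transpose]
          exact h5)
      rwa [Matrix.charpoly_transpose] at h6
    · intro h6
      apply hmac
      rw [← h6, hcm]
    · intro h6
      apply hma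
      apply mul_right_cancel₀ hc
      calc m * c = m * (c / m * a) := by rw [h6]
        _ = m * (c / m) * a := by ring
        _ = a * c := by rw [hcm, mul_comm]
  have hcls : ∀ (t k : K) (A : Matrix (Fin n) (Fin n) K), A ≠ 0 → g * A = t • (A * g) →
      C * A - A * C = k • A → Cls g c a k t := by
    intro t k A hA hgA hCA
    obtain ⟨s, m, v, w, hw, hgw, hCw, hAv, hAgv, hCv'⟩ := src g C A h20 hCg hC3 hA
    apply cls_of g c a k t s m ha hc hdual (tgt s m w hw hCw hgw)
    apply tgt _ _ (A *ᵥ v) hAv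
    · have h1 : C * A = A * C + k • A := by rw [← hCA]; abel
      rw [Matrix.mulVec_mulVec, h1, Matrix.add_mulVec, ← Matrix.mulVec_mulVec, hCv',
        Matrix.mulVec_smul, Matrix.smul_mulVec, add_comm k s, add_smul]
    · rw [Matrix.mulVec_mulVec, hgA, Matrix.smul_mulVec, ← Matrix.mulVec_mulVec, hAgv, smul_smul]
  refine ⟨P, s, C, hP, hs1, hs2, hskew, hCg, ?_⟩
  intro t k k' A B hA hB hgA hgB hCA hCB
  refine cls_inj g c a k k' t ha hc hdual h4 ?_ (hcls t k A hA hgA hCA) (hcls t k' B hB hgB hCB)
  intro x y z hx hy hz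
  exact hiso x y z hx.1 hy.1 hz.1 hx.2 hy.2 hz.2

end MR
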