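import Pool.Agent.Helper21.WD.StmtsQ
import Pool.Agent.Helper3.MT10.DRV

/-!
# CAS: the trace over the top piece of the Casimir operator of the trace form
-/

set_option autoImplicit false

open Matrix

namespace MT

namespace CAS82

open BND92 DRV3

variable {K : Type} [Field K] {n : ℕ}

/-- the form `tr (p x y)` on `a` -/
noncomputable def F (a : Submodule K (Matrix (Fin n) (Fin n) K)) (p : Matrix (Fin n) (Fin n) K) :
    a →ₗ[K] Module.Dual K a :=
  LinearMap.mk₂ K (fun x y : a => (p * ((x : Matrix (Fin n) (Fin n) K) *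
      (y : Matrix (Fin n) (Fin n) K))).trace)
    (by
      intro x x' y
      rw [Submodule.coe_add, Matrix.add_mul, Matrix.mul_add, Matrix.trace_add])
    (by
      intro c x y
      rw [Submodule.coe_smul, Matrix.smul_mul, Matrix.mul_smul, Matrix.trace_smul])
    (by
      intro x y y'
      rw [Submodule.coe_add, Matrix.mul_add, Matrix.mul_add, Matrix.trace_add])
    (by
      intro c x y
      rw [Submodule.coe_smul, Matrix.mul_smul, Matrix.mul_smul, Matrix.trace_smul])

theorem F_apply (a : Submodule K (Matrix (Fin n) (Fin n) K)) (p : Matrix (Fin n) (Fin n) K)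
    (x y : a) : F a p x y = (p * ((x : Matrix (Fin n) (Fin n) K) *
      (y : Matrix (Fin n) (Fin n) K))).trace := rfl

/-- the Casimir element and the operators defined by the trace form -/
theorem exists_cas (a : Submodule K (Matrix (Fin n) (Fin n) K)) (ha : Brk a)
    (hnd : ∀ x ∈ a, (∀ y ∈ a, (x * y).trace = 0) → x = 0) :
    ∃ Ω : Matrix (Fin n) (Fin n) K, (∀ A ∈ a, Ω * A = A * Ω) ∧
      Ω.trace = (Module.finrank K a : K) ∧ ∀ p : Matrix (Fin n) (Fin n) K,
        ∃ Φ : a →ₗ[K] a, (∀ x y : a, ((Φ x : Matrix (Fin n) (Fin n) K) *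
          (y : Matrix (Fin n) (Fin n) K)).trace = (p * ((x : Matrix (Fin n) (Fin n) K) *
          (y : Matrix (Fin n) (Fin n) K))).trace) ∧
          LinearMap.trace K a Φ = (p * Ω).trace := by
  have hinj : Function.Injective (F a 1) := by
    rw [← LinearMap.ker_eq_bot, LinearMap.ker_eq_bot']
    intro x hx
    apply Subtype.ext
    refine hnd x.1 x.2 fun y hy => ?_
    have h1 := LinearMap.congr_fun hx ⟨y, hy⟩
    rw [F_apply, Matrix.one_mul] at h1
    exact h1
  let TE : a ≃ₗ[K] Module.Dual K a :=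
    LinearMap.linearEquivOfInjective (F a 1) hinj (Subspace.dual_finrank_eq).symm
  have hTE : ∀ x y : a, TE x y = ((x : Matrix (Fin n) (Fin n) K) *
      (y : Matrix (Fin n) (Fin n) K)).trace := by
    intro x y
    have h1 : TE x = F a 1 x := LinearMap.linearEquivOfInjective_apply _ _ _
    rw [h1, F_apply, Matrix.one_mul]
  let e := Module.finBasis K a
  let e' : Fin (Module.finrank K a) → a := fun k => TE.symm (e.coord k)
  have h1 : ∀ k (v : a), ((e' k : Matrix (Fin n) (Fin n) K) * (v : Matrix (Fin n) (Fin n) K)).trace =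
      e.repr v k := by
    intro k v
    rw [← hTE]
    show TE (TE.symm (e.coord k)) v = _
    rw [LinearEquiv.apply_symm_apply, Module.Basis.coord_apply]
  have hsum : ∀ v : a, (v : Matrix (Fin n) (Fin n) K) =
      ∑ j, e.repr v j • (e j : Matrix (Fin n) (Fin n) K) := by
    intro v
    have h2 := congrArg (a.subtype) (e.sum_repr v)
    rw [map_sum] at h2
    simpa using h2.symm
  have hsum' : ∀ v : a, (v : Matrix (Fin n) (Fin n) K) =
      ∑ j, ((e j : Matrix (Fin n) (Fin n) K) * (v : Matrix (Fin n) (Fin n) K)).trace •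
        (e' j : Matrix (Fin n) (Fin n) K) := by
    intro v
    rw [← sub_eq_zero]
    have hm : (∑ j, ((e j : Matrix (Fin n) (Fin n) K) * (v : Matrix (Fin n) (Fin n) K)).trace •
        (e' j : Matrix (Fin n) (Fin n) K)) ∈ a :=
      Submodule.sum_mem _ fun j _ => a.smul_mem _ (e' j).2
    refine hnd _ (a.sub_mem v.2 hm) fun y hy => ?_
    rw [Matrix.sub_mul, Matrix.trace_sub, sub_eq_zero, Finset.sum_mul, Matrix.trace_sum]
    have h2 : ∀ j, (((e j : Matrix (Fin n) (Fin n) K) * (v : Matrix (Fin n) (Fin n) K)).trace •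
        (e' j : Matrix (Fin n) (Fin n) K) * y).trace =
        ((e.repr ⟨y, hy⟩ j • (e j : Matrix (Fin n) (Fin n) K)) * (v : Matrix (Fin n) (Fin n) K)).trace
        := by
      intro j
      rw [Matrix.smul_mul, Matrix.trace_smul, h1 j ⟨y, hy⟩, Matrix.smul_mul, Matrix.trace_smul,
        smul_eq_mul, smul_eq_mul, mul_comm]
    rw [Finset.sum_congr rfl fun j _ => h2 j, ← Matrix.trace_sum, ← Finset.sum_mul,
      ← hsum ⟨y, hy⟩, Matrix.trace_mul_comm]
  refine ⟨∑ k, (e k : Matrix (Fin n) (Fin n) K) * (e' k : Matrix (Fin n) (Fin n) K), ?_, ?_, ?_⟩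
  · intro A hA
    have hb : ∀ v : a, A * (v : Matrix (Fin n) (Fin n) K) - v * A ∈ a := fun v => ha A hA v v.2
    have e1 : A * (∑ k, (e k : Matrix (Fin n) (Fin n) K) * (e' k : Matrix (Fin n) (Fin n) K)) -
        (∑ k, (e k : Matrix (Fin n) (Fin n) K) * (e' k : Matrix (Fin n) (Fin n) K)) * A =
        (∑ k, (A * (e k : Matrix (Fin n) (Fin n) K) - e k * A) * (e' k : Matrix (Fin n) (Fin n) K)) +
        ∑ k, (e k : Matrix (Fin n) (Fin n) K) *
          (A * (e' k : Matrix (Fin n) (Fin n) K) - e' k * A) := by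
      rw [Finset.mul_sum, Finset.sum_mul, ← Finset.sum_sub_distrib, ← Finset.sum_add_distrib]
      refine Finset.sum_congr rfl fun k _ => ?_
      simp only [Matrix.mul_sub, Matrix.sub_mul, Matrix.mul_assoc]
      abel
    have e2 : ∀ k, (A * (e k : Matrix (Fin n) (Fin n) K) - e k * A) *
        (e' k : Matrix (Fin n) (Fin n) K) = ∑ j, ((e' j : Matrix (Fin n) (Fin n) K) *
          (A * (e k : Matrix (Fin n) (Fin n) K) - e k * A)).trace •
          ((e j : Matrix (Fin n) (Fin n) K) * (e' k : Matrix (Fin n) (Fin n) K)) := by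
      intro k
      have h2 := hsum ⟨_, hb (e k)⟩
      simp only at h2
      conv_lhs => rw [h2]
      rw [Finset.sum_mul]
      refine Finset.sum_congr rfl fun j _ => ?_
      rw [Matrix.smul_mul, ← h1 j ⟨_, hb (e k)⟩]
    have e3 : ∀ k, (e k : Matrix (Fin n) (Fin n) K) *
        (A * (e' k : Matrix (Fin n) (Fin n) K) - e' k * A) =
        ∑ j, ((e j : Matrix (Fin n) (Fin n) K) *
          (A * (e' k : Matrix (Fin n) (Fin n) K) - e' k * A)).trace •
          ((e k : Matrix (Fin n) (Fin n) K) * (e' j : Matrix (Fin n) (Fin n) K)) := by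
      intro k
      have h2 := hsum' ⟨_, hb (e' k)⟩
      simp only at h2
      conv_lhs => rw [h2]
      rw [Finset.mul_sum]
      refine Finset.sum_congr rfl fun j _ => ?_
      rw [Matrix.mul_smul]
    have e4 : ∀ k j, ((e' j : Matrix (Fin n) (Fin n) K) *
        (A * (e k : Matrix (Fin n) (Fin n) K) - e k * A)).trace = -((e k : Matrix (Fin n) (Fin n) K) *
          (A * (e' j : Matrix (Fin n) (Fin n) K) - e' j * A)).trace := by
      intro k j
      have t1 : ((e' j : Matrix (Fin n) (Fin n) K) * (A * (e k : Matrix (Fin n) (Fin n) K))).trace =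
          ((e k : Matrix (Fin n) (Fin n) K) * ((e' j : Matrix (Fin n) (Fin n) K) * A)).trace := by
        rw [← Matrix.mul_assoc, Matrix.trace_mul_comm]
      have t2 : ((e' j : Matrix (Fin n) (Fin n) K) * ((e k : Matrix (Fin n) (Fin n) K) * A)).trace =
          ((e k : Matrix (Fin n) (Fin n) K) * (A * (e' j : Matrix (Fin n) (Fin n) K))).trace := by
        rw [Matrix.trace_mul_comm, Matrix.mul_assoc]
      rw [Matrix.mul_sub, Matrix.mul_sub, Matrix.trace_sub, Matrix.trace_sub, t1, t2, neg_sub]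
    symm
    rw [← sub_eq_zero, e1, Finset.sum_congr rfl fun k _ => e2 k,
      Finset.sum_congr rfl fun k _ => e3 k, Finset.sum_comm (f := fun k j =>
        ((e j : Matrix (Fin n) (Fin n) K) *
          (A * (e' k : Matrix (Fin n) (Fin n) K) - e' k * A)).trace •
          ((e k : Matrix (Fin n) (Fin n) K) * (e' j : Matrix (Fin n) (Fin n) K))),
      ← Finset.sum_add_distrib]
    refine Finset.sum_eq_zero fun k _ => ?_
    rw [← Finset.sum_add_distrib]
    refine Finset.sum_eq_zero fun j _ => ?_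
    rw [← add_smul, e4, neg_add_cancel, zero_smul]
  · rw [Matrix.trace_sum]
    have h2 : ∀ k, ((e k : Matrix (Fin n) (Fin n) K) * (e' k : Matrix (Fin n) (Fin n) K)).trace =
        1 := by
      intro k
      rw [Matrix.trace_mul_comm, h1]
      simp
    rw [Finset.sum_congr rfl fun k _ => h2 k]
    simp
  · intro p
    refine ⟨TE.symm.toLinearMap ∘ₗ F a p, ?_, ?_⟩
    · intro x y
      rw [← hTE]
      show TE (TE.symm (F a p x)) y = _
      rw [LinearEquiv.apply_symm_apply, F_apply]
    · rw [LinearMap.trace_eq_matrix_trace K e, Matrix.trace, Finset.mul_sum, Matrix.trace_sum]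
      refine Finset.sum_congr rfl fun k _ => ?_
      rw [Matrix.diag_apply, LinearMap.toMatrix_apply, ← h1, Matrix.trace_mul_comm, ← hTE]
      show TE (TE.symm (F a p (e k))) (e' k) = _
      rw [LinearEquiv.apply_symm_apply, F_apply]

/-- the projection onto the piece `x` -/
def pj (s : Fin n → ℤ) (x : ℤ) : Matrix (Fin n) (Fin n) K :=
  Matrix.diagonal fun i => if s i = x then 1 else 0

theorem tr1_eq (s : Fin n → ℤ) (A : Matrix (Fin n) (Fin n) K) : tr1 s A = (pj s 1 * A).trace := by
  rw [tr1, pj, Matrix.trace, Finset.sum_filter]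
  refine Finset.sum_congr rfl fun i _ => ?_
  rw [Matrix.diag_apply, Matrix.diagonal_mul]
  by_cases h : s i = 1 <;> simp [h]

/-- the projection of `a` onto its homogeneous part -/
def prj (s : Fin n → ℤ) (a : Submodule K (Matrix (Fin n) (Fin n) K))
    (hc : ∀ A ∈ a, ∀ x : ℤ, cmp s x A ∈ a) (x : ℤ) : a →ₗ[K] gr s x a where
  toFun A := ⟨cmp s x A, hc _ A.2 _, hm_cmp s x _⟩
  map_add' A B := by
    apply Subtype.ext
    ext i j
    simp only [cmp, Submodule.coe_add, Matrix.of_apply, Matrix.add_apply]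
    split_ifs <;> simp
  map_smul' c A := by
    apply Subtype.ext
    ext i j
    simp only [cmp, Submodule.coe_smul, Matrix.of_apply, Matrix.smul_apply, RingHom.id_apply]
    split_ifs <;> simp

/-- the inclusion -/
def inc (s : Fin n → ℤ) (a : Submodule K (Matrix (Fin n) (Fin n) K)) (x : ℤ) :
    gr s x a →ₗ[K] a := Submodule.inclusion fun _ h => h.1

theorem prj_inc (s : Fin n → ℤ) (a : Submodule K (Matrix (Fin n) (Fin n) K))
    (hc : ∀ A ∈ a, ∀ x : ℤ, cmp s x A ∈ a) (x : ℤ) : prj s a hc x ∘ₗ inc s a x = LinearMap.id := by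
  ext1 A
  apply Subtype.ext
  exact hm_iff.2 A.2.2

theorem trace_proj (s : Fin n → ℤ) (a : Submodule K (Matrix (Fin n) (Fin n) K))
    (hc : ∀ A ∈ a, ∀ x : ℤ, cmp s x A ∈ a) (x : ℤ) :
    LinearMap.trace K a (inc s a x ∘ₗ prj s a hc x) = (Module.finrank K (gr s x a) : K) := by
  rw [LinearMap.trace_comp_comm', prj_inc, LinearMap.trace_id]

theorem sum_cmp (s : Fin n → ℤ) (hs : ∀ j, |s j| ≤ 1) (A : Matrix (Fin n) (Fin n) K) :
    A = cmp s (-2) A + cmp s (-1) A + cmp s 0 A + cmp s 1 A + cmp s 2 A := by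
  ext i j
  simp only [cmp, Matrix.of_apply, Matrix.add_apply]
  have h1 := abs_le.1 (hs i)
  have h2 := abs_le.1 (hs j)
  have h3 : s i - s j = -2 ∨ s i - s j = -1 ∨ s i - s j = 0 ∨ s i - s j = 1 ∨ s i - s j = 2 := by
    omega
  rcases h3 with h | h | h | h | h <;> simp [h]

end CAS82

open BND92 DRV3 CAS82

theorem st_CAS (hTRC : ST_TRC) : ST_CAS := by
  intro K _ _ _ n ε ψ s a ha hs
  have hnd : ∀ x ∈ a, (∀ y ∈ a, (x * y).trace = 0) → x = 0 := fun x hx h =>
    hTRC K n ψ a ha.unit ha.brk ha.irr ha.iso x hx h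
  obtain ⟨Ω, hΩ1, hΩ2, hΩ3⟩ := exists_cas a ha.brk hnd
  obtain ⟨Φ, hΦ, hΦt⟩ := hΩ3 (pj s 1)
  have hψu := isUnit_iff_ne_zero.2 ha.unit
  have h20 : (2 : K) ≠ 0 := two_ne_zero
  -- `Φ` on the eigenvectors
  have heig : ∀ (x : a) (t : K), (∀ y ∈ a, ((pj s 1 : Matrix (Fin n) (Fin n) K) *
      ((x : Matrix (Fin n) (Fin n) K) * y)).trace = t * ((x : Matrix (Fin n) (Fin n) K) * y).trace) → Φ x = t • x := by
    intro x t h
    apply Subtype.ext
    rw [← sub_eq_zero]
    refine hnd _ (a.sub_mem (Φ x).2 (t • x).2) fun y hy => ?_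
    rw [Matrix.sub_mul, Matrix.trace_sub, hΦ x ⟨y, hy⟩, h y hy, Submodule.coe_smul,
      Matrix.smul_mul, Matrix.trace_smul, smul_eq_mul, sub_self]
  have hzero : ∀ x : a, (∀ i j, (x : Matrix (Fin n) (Fin n) K) i j ≠ 0 → s i ≠ 1) → Φ x = 0 := by
    intro x hx
    have h1 : (pj s 1 : Matrix (Fin n) (Fin n) K) * (x : Matrix (Fin n) (Fin n) K) = 0 := by
      ext i j
      rw [pj, Matrix.diagonal_mul, Matrix.zero_apply]
      by_cases h : (x : Matrix (Fin n) (Fin n) K) i j = 0
      · rw [h, mul_zero]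
      · simp [hx i j h]
    have h2 := heig x 0 (fun y _ => by
      rw [← Matrix.mul_assoc, h1, Matrix.zero_mul, Matrix.trace_zero, zero_mul])
    rw [h2, zero_smul]
  have htwo : ∀ x : a, Hm s 2 (x : Matrix (Fin n) (Fin n) K) → Φ x = x := by
    intro x hx
    have h1 : (pj s 1 : Matrix (Fin n) (Fin n) K) * (x : Matrix (Fin n) (Fin n) K) = x := by
      ext i j
      rw [pj, Matrix.diagonal_mul]
      by_cases h : (x : Matrix (Fin n) (Fin n) K) i j = 0
      · rw [h, mul_zero]
      · have h3 := hx i j h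
        have h4 := abs_le.1 (hs i)
        have h5 := abs_le.1 (hs j)
        have h6 : s i = 1 := by omega
        simp [h6]
    have h2 := heig x 1 (fun y _ => by
      rw [← Matrix.mul_assoc, h1, one_mul])
    rw [h2, one_smul]
  have hone : ∀ x : a, Hm s 1 (x : Matrix (Fin n) (Fin n) K) → Φ x = (1 / 2 : K) • x := by
    intro x hx
    apply heig
    intro y hy
    have h1 : (pj s 1 : Matrix (Fin n) (Fin n) K) * (x : Matrix (Fin n) (Fin n) K) +
        (x : Matrix (Fin n) (Fin n) K) * (pj s (-1) : Matrix (Fin n) (Fin n) K) = x := by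
      ext i j
      rw [Matrix.add_apply, pj, pj, Matrix.diagonal_mul, Matrix.mul_diagonal]
      by_cases h : (x : Matrix (Fin n) (Fin n) K) i j = 0
      · rw [h, mul_zero, zero_mul, add_zero]
      · have h3 := hx i j h
        have h4 := abs_le.1 (hs i)
        have h5 := abs_le.1 (hs j)
        have h6 : (s i = 1 ∧ s j = 0) ∨ (s i = 0 ∧ s j = -1) := by omega
        rcases h6 with ⟨h7, h8⟩ | ⟨h7, h8⟩ <;> simp [h7, h8]
    have h2 : (pj s 1 : Matrix (Fin n) (Fin n) K) * ψ = ψ * pj s (-1) := by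
      ext i j
      rw [pj, pj, Matrix.diagonal_mul, Matrix.mul_diagonal]
      by_cases h : ψ i j = 0
      · rw [h, mul_zero, zero_mul]
      · have h3 := ha.grad i j h
        by_cases h4 : s i = 1
        · have h5 : s j = -1 := by omega
          simp [h4, h5]
        · have h5 : s j ≠ -1 := by omega
          simp [h4, h5]
    have h3 : ∀ z ∈ a, z.transpose = -(ψ * z * ψ⁻¹) := by
      intro z hz
      have h4 : z.transpose * ψ = -(ψ * z) := eq_neg_of_add_eq_zero_left (ha.iso z hz)
      rw [← Matrix.neg_mul, ← h4, Matrix.mul_nonsing_inv_cancel_right _ _ hψu]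
    have h4 : ((pj s 1 : Matrix (Fin n) (Fin n) K) * ((x : Matrix (Fin n) (Fin n) K) * y)).trace =
        ((x : Matrix (Fin n) (Fin n) K) * (pj s (-1) : Matrix (Fin n) (Fin n) K) * y).trace := by
      rw [← Matrix.trace_transpose, Matrix.transpose_mul, Matrix.transpose_mul, h3 y hy,
        h3 x x.2, pj, Matrix.diagonal_transpose, ← pj, Matrix.neg_mul, Matrix.mul_neg, neg_neg]
      have h5 : ψ * y * ψ⁻¹ * (ψ * (x : Matrix (Fin n) (Fin n) K) * ψ⁻¹) =
          ψ * (y * x * ψ⁻¹) := by
        calc ψ * y * ψ⁻¹ * (ψ * (x : Matrix (Fin n) (Fin n) K) * ψ⁻¹)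
            = ψ * y * (ψ⁻¹ * ψ) * x * ψ⁻¹ := by simp only [Matrix.mul_assoc]
          _ = ψ * (y * x * ψ⁻¹) := by
              rw [Matrix.nonsing_inv_mul _ hψu, Matrix.mul_one]
              simp only [Matrix.mul_assoc]
      rw [h5, Matrix.mul_assoc, Matrix.trace_mul_comm, Matrix.mul_assoc, h2, Matrix.mul_assoc,
        ← Matrix.mul_assoc ψ⁻¹, Matrix.nonsing_inv_mul _ hψu, Matrix.one_mul,
        Matrix.mul_assoc, Matrix.trace_mul_comm]
    have h5 : ((x : Matrix (Fin n) (Fin n) K) * y).trace =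
        2 * (pj s 1 * ((x : Matrix (Fin n) (Fin n) K) * y)).trace := by
      have h6 : ((x : Matrix (Fin n) (Fin n) K) * y).trace =
          (((pj s 1 : Matrix (Fin n) (Fin n) K) * (x : Matrix (Fin n) (Fin n) K) +
            (x : Matrix (Fin n) (Fin n) K) * (pj s (-1) : Matrix (Fin n) (Fin n) K)) * y).trace := by rw [h1]
      rw [h6, Matrix.add_mul, Matrix.trace_add, ← h4, Matrix.mul_assoc]
      ring
    rw [h5]
    field_simp
  -- the decomposition
  have hdec : Φ = (1 / 2 : K) • (inc s a 1 ∘ₗ prj s a ha.comp 1) + inc s a 2 ∘ₗ prj s a ha.comp 2 +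
      (Φ ∘ₗ inc s a 0) ∘ₗ prj s a ha.comp 0 := by
    ext1 A
    have h1 : A = inc s a (-2) (prj s a ha.comp (-2) A) + inc s a (-1) (prj s a ha.comp (-1) A) +
        inc s a 0 (prj s a ha.comp 0 A) + inc s a 1 (prj s a ha.comp 1 A) +
        inc s a 2 (prj s a ha.comp 2 A) := by
      apply Subtype.ext
      exact sum_cmp s hs (A : Matrix (Fin n) (Fin n) K)
    have h2 : Φ (inc s a (-2) (prj s a ha.comp (-2) A)) = 0 := by
      apply hzero
      intro i j hij
      have h3 := (prj s a ha.comp (-2) A).2.2 i j hij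
      have h4 := abs_le.1 (hs i)
      have h5 := abs_le.1 (hs j)
      omega
    have h3 : Φ (inc s a (-1) (prj s a ha.comp (-1) A)) = 0 := by
      apply hzero
      intro i j hij
      have h3 := (prj s a ha.comp (-1) A).2.2 i j hij
      have h4 := abs_le.1 (hs i)
      have h5 := abs_le.1 (hs j)
      omega
    have h4 := hone (inc s a 1 (prj s a ha.comp 1 A)) (prj s a ha.comp 1 A).2.2
    have h5 := htwo (inc s a 2 (prj s a ha.comp 2 A)) (prj s a ha.comp 2 A).2.2
    conv_lhs => rw [h1]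
    rw [map_add, map_add, map_add, map_add, h2, h3, h4, h5, zero_add, zero_add]
    simp only [LinearMap.add_apply, LinearMap.smul_apply, LinearMap.comp_apply]
    abel
  refine ⟨prj s a ha.comp 0 ∘ₗ Φ ∘ₗ inc s a 0, ?_, ?_⟩
  · intro x y
    have h1 : ((prj s a ha.comp 0 (Φ (inc s a 0 x)) : Matrix (Fin n) (Fin n) K) *
        (y : Matrix (Fin n) (Fin n) K)).trace = ((Φ (inc s a 0 x) : Matrix (Fin n) (Fin n) K) *
        (y : Matrix (Fin n) (Fin n) K)).trace := by
      rw [Matrix.trace_mul_comm, Matrix.trace_mul_comm (Φ (inc s a 0 x) : Matrix (Fin n) (Fin n) K)]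
      have h2 := trace_cmp s 0 (y : Matrix (Fin n) (Fin n) K)
        (Φ (inc s a 0 x) : Matrix (Fin n) (Fin n) K) y.2.2
      rw [neg_zero] at h2
      exact h2.symm
    show ((prj s a ha.comp 0 (Φ (inc s a 0 x)) : Matrix (Fin n) (Fin n) K) *
        (y : Matrix (Fin n) (Fin n) K)).trace = _
    rw [h1, hΦ (inc s a 0 x) ⟨y, y.2.1⟩, tr1_eq]
    rfl
  · have h1 : LinearMap.trace K a Φ = (1 / 2 : K) * (Module.finrank K (gr s 1 a) : K) +
        (Module.finrank K (gr s 2 a) : K) + LinearMap.trace K (gr s 0 a)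
          (prj s a ha.comp 0 ∘ₗ Φ ∘ₗ inc s a 0) := by
      conv_lhs => rw [hdec]
      rw [map_add, map_add, map_smul, trace_proj, trace_proj, LinearMap.trace_comp_comm',
        smul_eq_mul]
    have h2 : (n : K) * LinearMap.trace K a Φ = (Module.finrank K a : K) *
        ((Finset.univ.filter fun j => s j = 1).card : K) := by
      rcases Nat.eq_zero_or_pos n with rfl | hn
      · have h3 : (Finset.univ.filter fun j => s j = 1).card = 0 := by
          rw [Finset.card_eq_zero]
          ext j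
          exact j.elim0
        rw [h3]
        push_cast
        ring
      · obtain ⟨c, hc⟩ := schur hn ha.irr hΩ1
        have h3 : (n : K) * c = (Module.finrank K a : K) := by
          rw [← hΩ2, hc, Matrix.trace_smul, Matrix.trace_one, Fintype.card_fin, smul_eq_mul,
            mul_comm]
        have h4 : LinearMap.trace K a Φ = c * ((Finset.univ.filter fun j => s j = 1).card : K) := by
          rw [hΦt, hc, Matrix.mul_smul, Matrix.trace_smul, smul_eq_mul, ← tr1_eq, tr1]
          congr 1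
          simp
        rw [h4, ← mul_assoc, h3]
    have h3 : (1 / 2 : K) * 2 = 1 := by norm_num
    calc 2 * (Module.finrank K a : K) * ((Finset.univ.filter fun j => s j = 1).card : K)
        = 2 * ((n : K) * LinearMap.trace K a Φ) := by rw [h2]; ring
      _ = _ := by
        rw [h1]
        linear_combination (n : K) * (Module.finrank K (gr s 1 a) : K) * h3

end MT
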